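import Pool.Agent.H65.AD.TargetsA

/-!
# HLB: the sum over the pairs `(r, t)` with large `r t` (MP_347b49_nt)
-/

set_option autoImplicit false

open MeasureTheory Set Filter
open scoped Real

namespace Pool.Agent.H48.ADM.HLB

open Pool.Agent.H31.CN Pool.Agent.H95.AD Pool.Agent.H50.CN Pool.Agent.H65.AD

/-- the inequality of Minkowski for finite sums -/
theorem mink {ι : Type} (s : Finset ℕ) (I : Finset ι) (F : ι → ℕ → ℝ) (b : ι → ℝ)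
    (hb : ∀ i ∈ I, 0 ≤ b i) (h : ∀ i ∈ I, ∑ D ∈ s, F i D ^ 2 ≤ b i ^ 2) :
    ∑ D ∈ s, (∑ i ∈ I, F i D) ^ 2 ≤ (∑ i ∈ I, b i) ^ 2 := by
  have h1 : ∀ D ∈ s, (∑ i ∈ I, F i D) ^ 2 = ∑ i ∈ I, ∑ k ∈ I, F i D * F k D := by
    intro D _
    rw [sq, Finset.sum_mul_sum]
  rw [Finset.sum_congr rfl h1, sq, Finset.sum_mul_sum, Finset.sum_comm]
  refine Finset.sum_le_sum fun i hi => ?_
  rw [Finset.sum_comm]
  refine Finset.sum_le_sum fun k hk => ?_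
  apply le_of_sq_le_sq_of_nonneg (mul_nonneg (hb i hi) (hb k hk))
  calc (∑ D ∈ s, F i D * F k D) ^ 2 ≤ (∑ D ∈ s, F i D ^ 2) * ∑ D ∈ s, F k D ^ 2 :=
        Finset.sum_mul_sq_le_sq_mul_sq _ _ _
    _ ≤ b i ^ 2 * b k ^ 2 := mul_le_mul (h i hi) (h k hk)
        (Finset.sum_nonneg fun _ _ => sq_nonneg _) (sq_nonneg _)
    _ = (b i * b k) ^ 2 := by ring
where
  le_of_sq_le_sq_of_nonneg {a c : ℝ} (hc : 0 ≤ c) (h : a ^ 2 ≤ c ^ 2) : a ≤ c :=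
    (le_abs_self a).trans (by rw [← abs_of_nonneg hc]; exact sq_le_sq.1 h)

/-- geometric sum -/
theorem geom_up {q : ℝ} (hq : 4 / 3 ≤ q) (J : ℕ) :
    ∑ j ∈ Finset.range (J + 1), q ^ j ≤ 4 * q ^ J := by
  induction J with
  | zero => simp
  | succ J ih =>
    rw [Finset.sum_range_succ]
    have h1 : 0 ≤ q ^ J := by positivity
    have h2 : q ^ (J + 1) = q * q ^ J := by ring
    nlinarith

theorem xD_one (D : ℕ) : xD 1 D = 1 := by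
  unfold xD
  simp

/-- the bound of one block -/
noncomputable def Bj (κ X W K C₁ : ℝ) (j t : ℕ) : ℝ :=
  C₁ * K * (t : ℝ) ^ (κ - 2) * (Real.sqrt X * ((2 : ℝ) ^ j) ^ (κ - 1 / 2) *
    (2 * (2 : ℝ) ^ j * t / W) ^ (1 / 4 : ℝ) + ((2 : ℝ) ^ j) ^ (κ + 1 / 2))

theorem Bj_nonneg {κ X W K C₁ : ℝ} (hW : 1 ≤ W) (hK : 0 ≤ K) (hC : 0 ≤ C₁) (j t : ℕ) :
    0 ≤ Bj κ X W K C₁ j t := by
  unfold Bj
  have h0 : 0 < W := by linarith
  positivity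

/-- lower bound for the square -/
theorem Bj_sq {κ X W K C₁ : ℝ} (hX : 1 ≤ X) (hW : 1 ≤ W) {j t : ℕ}
    (hjt : W ≤ 2 * (2 : ℝ) ^ j * t) :
    C₁ ^ 2 * K ^ 2 * ((t : ℝ) ^ (κ - 2)) ^ 2 * (X * (((2 : ℝ) ^ j) ^ (κ - 1 / 2)) ^ 2 +
      (((2 : ℝ) ^ j) ^ (κ + 1 / 2)) ^ 2) ≤ Bj κ X W K C₁ j t ^ 2 := by
  have h0 : 0 < W := by linarith
  have h1 : 1 ≤ (2 * (2 : ℝ) ^ j * t / W) ^ (1 / 4 : ℝ) := by
    apply Real.one_le_rpow _ (by norm_num)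
    rw [le_div_iff₀ h0, one_mul]
    exact hjt
  unfold Bj
  set a := ((2 : ℝ) ^ j) ^ (κ - 1 / 2) with ha
  set b := ((2 : ℝ) ^ j) ^ (κ + 1 / 2) with hb
  set v := (2 * (2 : ℝ) ^ j * t / W) ^ (1 / 4 : ℝ) with hv
  have ha0 : 0 ≤ a := by positivity
  have hb0 : 0 ≤ b := by positivity
  have hX0 : 0 ≤ Real.sqrt X := Real.sqrt_nonneg X
  have hs : Real.sqrt X ^ 2 = X := Real.sq_sqrt (by linarith)
  have h2 : X * a ^ 2 + b ^ 2 ≤ (Real.sqrt X * a * v + b) ^ 2 := by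
    have h3 : 0 ≤ Real.sqrt X * a := mul_nonneg hX0 ha0
    have h4 : Real.sqrt X * a ≤ Real.sqrt X * a * v := le_mul_of_one_le_right h3 h1
    have h5 : (Real.sqrt X * a) ^ 2 ≤ (Real.sqrt X * a * v) ^ 2 := pow_le_pow_left₀ h3 h4 2
    have h6 : (Real.sqrt X * a) ^ 2 = X * a ^ 2 := by rw [mul_pow, hs]
    have h7 : 0 ≤ Real.sqrt X * a * v * b := mul_nonneg (h3.trans h4) hb0
    nlinarith
  have h8 : 0 ≤ C₁ ^ 2 * K ^ 2 * ((t : ℝ) ^ (κ - 2)) ^ 2 := by positivity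
  calc _ ≤ C₁ ^ 2 * K ^ 2 * ((t : ℝ) ^ (κ - 2)) ^ 2 * (Real.sqrt X * a * v + b) ^ 2 :=
        mul_le_mul_of_nonneg_left h2 h8
    _ = _ := by ring

/-- one block -/
theorem block {C₀ : ℝ} (hC₀ : 0 < C₀)
    (hQ : ∀ (X : ℝ) (Y : ℕ) (s : Finset ℕ) (b : ℕ → ℝ), 1 ≤ X →
      (∀ r ∈ s, 2 ≤ r ∧ r ≤ Y ∧ Odd r ∧ Squarefree r) →
      ∑ D ∈ Finset.Icc 1 ⌊X⌋₊, (∑ r ∈ s, b r * xD r D) ^ 2 ≤
        C₀ * (X + (Y : ℝ) ^ 2) * ∑ r ∈ s, b r ^ 2)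
    {κ : ℝ} (hκ : 0 < κ) (hκ8 : κ ≤ 1 / 8) {X W K : ℝ} (hX : 1 ≤ X) (hW : 1 ≤ W) (hK : 0 ≤ K)
    (j t : ℕ) (ht : 1 ≤ t) (s : Finset ℕ) (b : ℕ → ℝ)
    (hs : ∀ r ∈ s, 2 ^ j ≤ r ∧ r < 2 ^ (j + 1) ∧ Odd r ∧ Squarefree r ∧ W < ((r * t : ℕ) : ℝ) ∧
      |b r| ≤ K * (((r * t : ℕ) : ℝ) ^ κ / ((r : ℝ) * (t : ℝ) ^ 2))) :
    ∑ D ∈ Finset.Icc 1 ⌊X⌋₊, (∑ r ∈ s, b r * xD r D) ^ 2 ≤
      Bj κ X W K (8 * C₀ + 1) j t ^ 2 := by
  rcases s.eq_empty_or_nonempty with rfl | hne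
  · simp only [Finset.sum_empty]
    have : ∑ _D ∈ Finset.Icc 1 ⌊X⌋₊, (0 : ℝ) ^ 2 = 0 := by simp
    rw [this]
    exact sq_nonneg _
  obtain ⟨r0, hr0⟩ := hne
  obtain ⟨hr1, hr2, -, -, hr5, -⟩ := hs r0 hr0
  have ht0 : (0 : ℝ) < t := by exact_mod_cast ht
  have hu0 : (0 : ℝ) < (2 : ℝ) ^ j := by positivity
  have hjt : W ≤ 2 * (2 : ℝ) ^ j * t := by
    have h1 : ((r0 * t : ℕ) : ℝ) ≤ 2 * (2 : ℝ) ^ j * t := by
      push_cast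
      apply mul_le_mul_of_nonneg_right _ ht0.le
      have h2 : (r0 : ℝ) ≤ ((2 ^ (j + 1) : ℕ) : ℝ) := by exact_mod_cast hr2.le
      push_cast at h2
      rw [pow_succ] at h2
      linarith
    linarith
  refine le_trans ?_ (Bj_sq hX hW hjt)
  set u : ℝ := (2 : ℝ) ^ j with hu
  set τ : ℝ := (t : ℝ) ^ (κ - 2) with hτ
  set a := u ^ (κ - 1 / 2) with ha
  set c := u ^ (κ + 1 / 2) with hc
  have hτ0 : 0 ≤ τ := by positivity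
  have ha0 : 0 ≤ a := by positivity
  have hc0 : 0 ≤ c := by positivity
  have hcoef : 8 * C₀ ≤ (8 * C₀ + 1) ^ 2 := by nlinarith
  -- bound of the coefficients
  have hbr : ∀ r ∈ s, b r ^ 2 ≤ K ^ 2 * (2 * (u ^ (κ - 1)) ^ 2 * τ ^ 2) := by
    intro r hr
    obtain ⟨h1, h2, -, -, -, h6⟩ := hs r hr
    have hr1' : u ≤ (r : ℝ) := by rw [hu]; exact_mod_cast h1
    have hr2' : (r : ℝ) ≤ 2 * u := by
      have h3 : (r : ℝ) ≤ ((2 ^ (j + 1) : ℕ) : ℝ) := by exact_mod_cast h2.le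
      push_cast at h3
      rw [pow_succ] at h3
      linarith
    have hr0' : (0 : ℝ) < r := lt_of_lt_of_le hu0 hr1'
    have h3 : ((r * t : ℕ) : ℝ) ^ κ / ((r : ℝ) * (t : ℝ) ^ 2) ≤
        2 ^ κ * u ^ (κ - 1) * τ := by
      push_cast
      have e1 : ((r : ℝ) * t) ^ κ ≤ (2 * u) ^ κ * (t : ℝ) ^ κ := by
        rw [Real.mul_rpow hr0'.le ht0.le]
        exact mul_le_mul_of_nonneg_right (Real.rpow_le_rpow hr0'.le hr2' hκ.le)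
          (Real.rpow_nonneg ht0.le _)
      have e2 : (2 * u) ^ κ = 2 ^ κ * u ^ κ := Real.mul_rpow (by norm_num) hu0.le
      have e3 : u ^ (κ - 1) = u ^ κ / u := by rw [Real.rpow_sub hu0, Real.rpow_one]
      have e4 : τ = (t : ℝ) ^ κ / (t : ℝ) ^ 2 := by
        rw [hτ, Real.rpow_sub ht0]
        norm_num
      rw [e3, e4, div_le_iff₀ (by positivity)]
      rw [e2] at e1
      have e5 : (2 : ℝ) ^ κ * (u ^ κ / u) * ((t : ℝ) ^ κ / (t : ℝ) ^ 2) * (r * (t : ℝ) ^ 2) =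
          2 ^ κ * u ^ κ * (t : ℝ) ^ κ * (r / u) := by
        field_simp
      rw [e5]
      have e6 : 1 ≤ (r : ℝ) / u := by rw [le_div_iff₀ hu0, one_mul]; exact hr1'
      exact e1.trans (le_mul_of_one_le_right (by positivity) e6)
    have h4 : |b r| ≤ K * (2 ^ κ * u ^ (κ - 1) * τ) := h6.trans (mul_le_mul_of_nonneg_left h3 hK)
    have h5 : b r ^ 2 ≤ (K * (2 ^ κ * u ^ (κ - 1) * τ)) ^ 2 := by
      rw [← sq_abs]
      exact pow_le_pow_left₀ (abs_nonneg _) h4 2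
    have h6' : ((2 : ℝ) ^ κ) ^ 2 ≤ 2 := by
      rw [← Real.rpow_natCast, ← Real.rpow_mul (by norm_num)]
      calc (2 : ℝ) ^ (κ * ((2 : ℕ) : ℝ)) ≤ (2 : ℝ) ^ (1 : ℝ) := by
            apply Real.rpow_le_rpow_of_exponent_le (by norm_num)
            push_cast
            linarith
        _ = 2 := Real.rpow_one 2
    refine h5.trans ?_
    have e7 : (K * (2 ^ κ * u ^ (κ - 1) * τ)) ^ 2 =
        ((2 : ℝ) ^ κ) ^ 2 * (K ^ 2 * ((u ^ (κ - 1)) ^ 2 * τ ^ 2)) := by ring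
    rw [e7]
    have e8 : K ^ 2 * (2 * (u ^ (κ - 1)) ^ 2 * τ ^ 2) =
        2 * (K ^ 2 * ((u ^ (κ - 1)) ^ 2 * τ ^ 2)) := by ring
    rw [e8]
    exact mul_le_mul_of_nonneg_right h6' (by positivity)
  have hcard : (s.card : ℝ) ≤ u := by
    have h1 : s ⊆ Finset.Ico (2 ^ j) (2 ^ (j + 1)) := by
      intro r hr
      obtain ⟨h1, h2, -⟩ := hs r hr
      exact Finset.mem_Ico.2 ⟨h1, h2⟩
    have h2 := Finset.card_le_card h1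
    rw [Nat.card_Ico, pow_succ] at h2
    have h3 : s.card ≤ 2 ^ j := by omega
    rw [hu]
    exact_mod_cast h3
  have hsum : ∑ r ∈ s, b r ^ 2 ≤ u * (K ^ 2 * (2 * (u ^ (κ - 1)) ^ 2 * τ ^ 2)) := by
    calc ∑ r ∈ s, b r ^ 2 ≤ ∑ _r ∈ s, K ^ 2 * (2 * (u ^ (κ - 1)) ^ 2 * τ ^ 2) :=
          Finset.sum_le_sum hbr
      _ = s.card * (K ^ 2 * (2 * (u ^ (κ - 1)) ^ 2 * τ ^ 2)) := by
          rw [Finset.sum_const, nsmul_eq_mul]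
      _ ≤ _ := mul_le_mul_of_nonneg_right hcard (by positivity)
  have hu1 : u * (u ^ (κ - 1)) ^ 2 = a ^ 2 := by
    rw [ha, ← Real.rpow_natCast, ← Real.rpow_natCast, ← Real.rpow_mul hu0.le,
      ← Real.rpow_mul hu0.le]
    nth_rewrite 1 [← Real.rpow_one u]
    rw [← Real.rpow_add hu0]
    congr 1
    push_cast
    ring
  have hu2 : u ^ 2 * a ^ 2 = c ^ 2 := by
    rw [← mul_pow]
    congr 1
    rw [ha, hc]
    nth_rewrite 1 [← Real.rpow_one u]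
    rw [← Real.rpow_add hu0]
    congr 1
    ring
  rcases Nat.eq_zero_or_pos j with hj | hj
  · -- the block of `1`
    have hu1' : u = 1 := by rw [hu, hj, pow_zero]
    have hs1 : s = {1} := by
      apply Finset.eq_singleton_iff_unique_mem.2
      have h1 : ∀ r ∈ s, r = 1 := by
        intro r hr
        obtain ⟨h1, h2, -⟩ := hs r hr
        rw [hj] at h1 h2
        norm_num at h1 h2
        omega
      exact ⟨h1 r0 hr0 ▸ hr0, h1⟩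
    have h2 := hbr 1 (by rw [hs1]; exact Finset.mem_singleton_self 1)
    rw [hs1]
    simp only [Finset.sum_singleton, xD_one, mul_one]
    rw [Finset.sum_const, nsmul_eq_mul, Nat.card_Icc, Nat.add_sub_cancel]
    have h3 : (⌊X⌋₊ : ℝ) ≤ X := Nat.floor_le (by linarith)
    obtain ⟨-, -, -, -, -, h6⟩ := hs 1 (by rw [hs1]; exact Finset.mem_singleton_self 1)
    have h4 : b 1 ^ 2 ≤ K ^ 2 * τ ^ 2 := by
      have e1 : ((1 * t : ℕ) : ℝ) ^ κ / (((1 : ℕ) : ℝ) * (t : ℝ) ^ 2) = τ := by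
        rw [one_mul, Nat.cast_one, one_mul, hτ, Real.rpow_sub ht0]
        norm_num
      rw [e1] at h6
      rw [← sq_abs, ← mul_pow]
      exact pow_le_pow_left₀ (abs_nonneg _) h6 2
    have h5 : a = 1 := by rw [ha, hu1', Real.one_rpow]
    have h7 : (1 : ℝ) ≤ (8 * C₀ + 1) ^ 2 := by nlinarith
    have h8 : 0 ≤ K ^ 2 * τ ^ 2 := by positivity
    calc (⌊X⌋₊ : ℝ) * b 1 ^ 2 ≤ X * (K ^ 2 * τ ^ 2) :=
          mul_le_mul h3 h4 (sq_nonneg _) (by linarith)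
      _ ≤ 1 * (K ^ 2 * τ ^ 2) * (X * a ^ 2 + c ^ 2) := by
          rw [h5]
          nlinarith [mul_nonneg h8 (sq_nonneg c)]
      _ ≤ (8 * C₀ + 1) ^ 2 * (K ^ 2 * τ ^ 2) * (X * a ^ 2 + c ^ 2) := by
          apply mul_le_mul_of_nonneg_right _ (by positivity)
          exact mul_le_mul_of_nonneg_right h7 h8
      _ = _ := by ring
  · have h1 := hQ X (2 ^ (j + 1)) s b hX (by
      intro r hr
      obtain ⟨h1, h2, h3, h4, -⟩ := hs r hr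
      refine ⟨?_, h2.le, h3, h4⟩
      have : 2 ^ 1 ≤ 2 ^ j := Nat.pow_le_pow_right (by norm_num) hj
      omega)
    refine h1.trans ?_
    have e1 : ((2 ^ (j + 1) : ℕ) : ℝ) ^ 2 = 4 * u ^ 2 := by
      rw [hu]
      push_cast
      ring
    rw [e1]
    calc C₀ * (X + 4 * u ^ 2) * ∑ r ∈ s, b r ^ 2
        ≤ C₀ * (X + 4 * u ^ 2) * (u * (K ^ 2 * (2 * (u ^ (κ - 1)) ^ 2 * τ ^ 2))) := by
          apply mul_le_mul_of_nonneg_left hsum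
          positivity
      _ = 2 * C₀ * (K ^ 2 * τ ^ 2) * (X * (u * (u ^ (κ - 1)) ^ 2) +
            4 * (u ^ 2 * (u * (u ^ (κ - 1)) ^ 2))) := by ring
      _ = 2 * C₀ * (K ^ 2 * τ ^ 2) * (X * a ^ 2 + 4 * c ^ 2) := by rw [hu1, hu2]
      _ ≤ 8 * C₀ * (K ^ 2 * τ ^ 2) * (X * a ^ 2 + c ^ 2) := by
          have h9 : 0 ≤ C₀ * (K ^ 2 * τ ^ 2) := by positivity
          have h10 : 0 ≤ X * a ^ 2 := by positivity
          nlinarith [mul_nonneg h9 h10]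
      _ ≤ (8 * C₀ + 1) ^ 2 * (K ^ 2 * τ ^ 2) * (X * a ^ 2 + c ^ 2) := by
          apply mul_le_mul_of_nonneg_right _ (by positivity)
          exact mul_le_mul_of_nonneg_right hcoef (by positivity)
      _ = _ := by ring

/-- the termwise bound -/
theorem Bj_le {κ : ℝ} (hκ8 : κ ≤ 1 / 8) {X W K C₁ : ℝ} (hW0 : 0 < W) (hK : 0 ≤ K)
    (hC₁ : 0 ≤ C₁) (j t : ℕ) (ht1 : 1 ≤ t) :
    Bj κ X W K C₁ j t ≤
      C₁ * K * (Real.sqrt X * (2 / W) ^ (1 / 4 : ℝ) *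
        (((2 : ℝ) ^ (-(1 / 8) : ℝ)) ^ j * (t : ℝ) ^ (-(13 / 8) : ℝ)) +
        ((2 : ℝ) ^ (κ + 1 / 2)) ^ j * (t : ℝ) ^ (-(13 / 8) : ℝ)) := by
  obtain ⟨ρ, hρ⟩ : ∃ ρ : ℝ, ρ = 2 ^ (-(1 / 8) : ℝ) := ⟨_, rfl⟩
  obtain ⟨w, hw⟩ : ∃ w, w = (2 / W) ^ (1 / 4 : ℝ) := ⟨_, rfl⟩
  have hw0 : 0 ≤ w := by rw [hw]; positivity
  rw [← hρ, ← hw]
  have ht1' : (1 : ℝ) ≤ t := by exact_mod_cast ht1
  have ht0 : (0 : ℝ) < t := by linarith
  have hu0 : (0 : ℝ) < (2 : ℝ) ^ j := by positivity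
  unfold Bj
  have e1 : (2 * (2 : ℝ) ^ j * t / W) ^ (1 / 4 : ℝ) =
      w * ((2 : ℝ) ^ j) ^ (1 / 4 : ℝ) * (t : ℝ) ^ (1 / 4 : ℝ) := by
    rw [hw, ← Real.mul_rpow (by positivity) (by positivity),
      ← Real.mul_rpow (by positivity) (by positivity)]
    congr 1
    field_simp
  have e2 : ((2 : ℝ) ^ j) ^ (κ - 1 / 2) * ((2 : ℝ) ^ j) ^ (1 / 4 : ℝ) ≤ ρ ^ j := by
    rw [← Real.rpow_add hu0, hρ, ← Real.rpow_natCast, ← Real.rpow_natCast,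
      ← Real.rpow_mul (by norm_num), ← Real.rpow_mul (by norm_num)]
    apply Real.rpow_le_rpow_of_exponent_le (by norm_num)
    have h0 : (0 : ℝ) ≤ j := Nat.cast_nonneg j
    have h1 : κ - 1 / 2 + 1 / 4 ≤ -(1 / 8) := by linarith
    calc (j : ℝ) * (κ - 1 / 2 + 1 / 4) ≤ j * (-(1 / 8)) := mul_le_mul_of_nonneg_left h1 h0
      _ = -(1 / 8) * j := by ring
  have e3 : (t : ℝ) ^ (κ - 2) * (t : ℝ) ^ (1 / 4 : ℝ) ≤ (t : ℝ) ^ (-(13 / 8) : ℝ) := by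
    rw [← Real.rpow_add ht0]
    exact Real.rpow_le_rpow_of_exponent_le ht1' (by linarith)
  have e4 : (t : ℝ) ^ (κ - 2) ≤ (t : ℝ) ^ (-(13 / 8) : ℝ) :=
    Real.rpow_le_rpow_of_exponent_le ht1' (by linarith)
  have e5 : ((2 : ℝ) ^ j) ^ (κ + 1 / 2) = ((2 : ℝ) ^ (κ + 1 / 2)) ^ j := by
    rw [← Real.rpow_natCast, ← Real.rpow_natCast, ← Real.rpow_mul (by norm_num),
      ← Real.rpow_mul (by norm_num), mul_comm]
  rw [e1, e5]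
  have e6 : C₁ * K * (t : ℝ) ^ (κ - 2) * (Real.sqrt X * ((2 : ℝ) ^ j) ^ (κ - 1 / 2) *
      (w * ((2 : ℝ) ^ j) ^ (1 / 4 : ℝ) * (t : ℝ) ^ (1 / 4 : ℝ)) +
        ((2 : ℝ) ^ (κ + 1 / 2)) ^ j) =
      C₁ * K * (Real.sqrt X * w * ((((2 : ℝ) ^ j) ^ (κ - 1 / 2) *
        ((2 : ℝ) ^ j) ^ (1 / 4 : ℝ)) * ((t : ℝ) ^ (κ - 2) * (t : ℝ) ^ (1 / 4 : ℝ))) +
        ((2 : ℝ) ^ (κ + 1 / 2)) ^ j * (t : ℝ) ^ (κ - 2)) := by ring
  rw [e6]
  apply mul_le_mul_of_nonneg_left _ (mul_nonneg hC₁ hK)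
  apply add_le_add
  · apply mul_le_mul_of_nonneg_left _ (mul_nonneg (Real.sqrt_nonneg _) hw0)
    exact mul_le_mul e2 e3 (by positivity) (hρ ▸ by positivity)
  · exact mul_le_mul_of_nonneg_left e4 (by positivity)

/-- the sum of the bounds -/
theorem sum_Bj {κ : ℝ} (hκ : 0 < κ) (hκ8 : κ ≤ 1 / 8) {C₁ : ℝ} (hC₁ : 0 ≤ C₁) :
    ∃ C : ℝ, 0 < C ∧ ∀ (X W K : ℝ) (Y : ℕ), 1 ≤ X → 1 ≤ W → 0 ≤ K → 1 ≤ Y →
      (∑ i ∈ Finset.range (Nat.log 2 Y + 1) ×ˢ Finset.Icc 1 Y, Bj κ X W K C₁ i.1 i.2) ^ 2 ≤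
        C * K ^ 2 * (X * W ^ (-(1 / 2) : ℝ) + (Y : ℝ) ^ (1 + 2 * κ)) := by
  have hsm : Summable fun n : ℕ => (n : ℝ) ^ (-(13 / 8) : ℝ) :=
    Real.summable_nat_rpow.2 (by norm_num)
  obtain ⟨S, hS⟩ : ∃ S, S = ∑' n : ℕ, (n : ℝ) ^ (-(13 / 8) : ℝ) := ⟨_, rfl⟩
  have hS0 : 0 ≤ S := by
    rw [hS]
    exact tsum_nonneg fun n => Real.rpow_nonneg (Nat.cast_nonneg n) _
  have hSY : ∀ Y : ℕ, ∑ t ∈ Finset.Icc 1 Y, (t : ℝ) ^ (-(13 / 8) : ℝ) ≤ S := by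
    intro Y
    rw [hS]
    exact hsm.sum_le_tsum _ fun n _ => Real.rpow_nonneg (Nat.cast_nonneg n) _
  obtain ⟨ρ, hρ⟩ : ∃ ρ : ℝ, ρ = 2 ^ (-(1 / 8) : ℝ) := ⟨_, rfl⟩
  have hρ0 : 0 ≤ ρ := by rw [hρ]; positivity
  have hρ1 : ρ < 1 := by
    rw [hρ]
    exact Real.rpow_lt_one_of_one_lt_of_neg (by norm_num) (by norm_num)
  have hgeo : ∀ n : ℕ, ∑ j ∈ Finset.range n, ρ ^ j ≤ (1 - ρ)⁻¹ := by
    intro n
    rw [← tsum_geometric_of_lt_one hρ0 hρ1]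
    exact (summable_geometric_of_lt_one hρ0 hρ1).sum_le_tsum _ fun j _ => pow_nonneg hρ0 j
  obtain ⟨G, hG⟩ : ∃ G, G = (1 - ρ)⁻¹ := ⟨_, rfl⟩
  have hG0 : 0 ≤ G := by
    rw [hG]
    exact inv_nonneg.2 (by linarith)
  rw [← hG] at hgeo
  refine ⟨C₁ ^ 2 * S ^ 2 * (4 * G ^ 2 + 32) + 1, by positivity, ?_⟩
  intro X W K Y hX hW hK hY
  have hW0 : 0 < W := by linarith
  have hY0 : (0 : ℝ) < Y := by exact_mod_cast hY
  obtain ⟨J, hJ⟩ : ∃ J, J = Nat.log 2 Y := ⟨_, rfl⟩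
  rw [← hJ]
  obtain ⟨w, hw⟩ : ∃ w, w = (2 / W) ^ (1 / 4 : ℝ) := ⟨_, rfl⟩
  have hw0 : 0 ≤ w := by rw [hw]; positivity
  -- termwise bound
  have hterm : ∀ i ∈ Finset.range (J + 1) ×ˢ Finset.Icc 1 Y, Bj κ X W K C₁ i.1 i.2 ≤
      C₁ * K * (Real.sqrt X * w * (ρ ^ i.1 * (i.2 : ℝ) ^ (-(13 / 8) : ℝ)) +
        ((2 : ℝ) ^ (κ + 1 / 2)) ^ i.1 * (i.2 : ℝ) ^ (-(13 / 8) : ℝ)) := by
    intro i hi
    rw [Finset.mem_product, Finset.mem_Icc] at hi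
    rw [hw, hρ]
    exact Bj_le hκ8 hW0 hK hC₁ i.1 i.2 hi.2.1
  -- the sum
  have hq : 4 / 3 ≤ (2 : ℝ) ^ (κ + 1 / 2) := by
    have h1 : (2 : ℝ) ^ (1 / 2 : ℝ) ≤ 2 ^ (κ + 1 / 2) :=
      Real.rpow_le_rpow_of_exponent_le (by norm_num) (by linarith)
    have h2 : 4 / 3 ≤ (2 : ℝ) ^ (1 / 2 : ℝ) := by
      rw [← Real.sqrt_eq_rpow]
      apply Real.le_sqrt_of_sq_le
      norm_num
    exact h2.trans h1
  have hup : ((2 : ℝ) ^ (κ + 1 / 2)) ^ J ≤ (Y : ℝ) ^ (κ + 1 / 2) := by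
    have h1 : ((2 ^ J : ℕ) : ℝ) ≤ Y := by
      rw [hJ]
      exact_mod_cast Nat.pow_log_le_self 2 (by omega)
    push_cast at h1
    rw [← Real.rpow_natCast, ← Real.rpow_mul (by norm_num), mul_comm,
      Real.rpow_mul (by norm_num), Real.rpow_natCast]
    exact Real.rpow_le_rpow (by positivity) h1 (by linarith)
  have hsum : ∑ i ∈ Finset.range (J + 1) ×ˢ Finset.Icc 1 Y, Bj κ X W K C₁ i.1 i.2 ≤
      C₁ * K * (Real.sqrt X * w * (G * S) + 4 * (Y : ℝ) ^ (κ + 1 / 2) * S) := by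
    refine (Finset.sum_le_sum hterm).trans ?_
    rw [← Finset.mul_sum, Finset.sum_add_distrib, ← Finset.mul_sum]
    apply mul_le_mul_of_nonneg_left _ (mul_nonneg hC₁ hK)
    have e1 : ∑ i ∈ Finset.range (J + 1) ×ˢ Finset.Icc 1 Y,
        ρ ^ i.1 * (i.2 : ℝ) ^ (-(13 / 8) : ℝ) =
        (∑ j ∈ Finset.range (J + 1), ρ ^ j) *
          ∑ t ∈ Finset.Icc 1 Y, (t : ℝ) ^ (-(13 / 8) : ℝ) := by
      rw [Finset.sum_mul_sum, Finset.sum_product]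
    have e2 : ∑ i ∈ Finset.range (J + 1) ×ˢ Finset.Icc 1 Y,
        ((2 : ℝ) ^ (κ + 1 / 2)) ^ i.1 * (i.2 : ℝ) ^ (-(13 / 8) : ℝ) =
        (∑ j ∈ Finset.range (J + 1), ((2 : ℝ) ^ (κ + 1 / 2)) ^ j) *
          ∑ t ∈ Finset.Icc 1 Y, (t : ℝ) ^ (-(13 / 8) : ℝ) := by
      rw [Finset.sum_mul_sum, Finset.sum_product]
    rw [e1, e2]
    have hs0 : 0 ≤ ∑ t ∈ Finset.Icc 1 Y, (t : ℝ) ^ (-(13 / 8) : ℝ) :=
      Finset.sum_nonneg fun t _ => Real.rpow_nonneg (Nat.cast_nonneg t) _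
    apply add_le_add
    · apply mul_le_mul_of_nonneg_left _ (mul_nonneg (Real.sqrt_nonneg _) hw0)
      exact mul_le_mul (hgeo _) (hSY Y) hs0 hG0
    · apply mul_le_mul _ (hSY Y) hs0 (by positivity)
      exact (geom_up hq J).trans (mul_le_mul_of_nonneg_left hup (by norm_num))
  have hnn : 0 ≤ ∑ i ∈ Finset.range (J + 1) ×ˢ Finset.Icc 1 Y, Bj κ X W K C₁ i.1 i.2 :=
    Finset.sum_nonneg fun i _ => Bj_nonneg hW hK hC₁ i.1 i.2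
  have hsq := pow_le_pow_left₀ hnn hsum 2
  refine hsq.trans ?_
  have hw2 : w ^ 2 ≤ 2 * W ^ (-(1 / 2) : ℝ) := by
    rw [hw, ← Real.rpow_natCast, ← Real.rpow_mul (by positivity),
      Real.div_rpow (by norm_num) hW0.le]
    have e1 : (1 / 4 : ℝ) * ((2 : ℕ) : ℝ) = 1 / 2 := by norm_num
    rw [e1, Real.rpow_neg hW0.le, div_eq_mul_inv]
    apply mul_le_mul_of_nonneg_right _ (by positivity)
    rw [← Real.sqrt_eq_rpow]
    apply Real.sqrt_le_iff.2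
    norm_num
  have hY2 : ((Y : ℝ) ^ (κ + 1 / 2)) ^ 2 = (Y : ℝ) ^ (1 + 2 * κ) := by
    rw [← Real.rpow_natCast, ← Real.rpow_mul hY0.le]
    congr 1
    push_cast
    ring
  have hXs : Real.sqrt X ^ 2 = X := Real.sq_sqrt (by linarith)
  obtain ⟨A, hA⟩ : ∃ A, A = Real.sqrt X * w * (G * S) := ⟨_, rfl⟩
  obtain ⟨B, hB⟩ : ∃ B, B = 4 * (Y : ℝ) ^ (κ + 1 / 2) * S := ⟨_, rfl⟩
  have hA2 : A ^ 2 ≤ 2 * G ^ 2 * S ^ 2 * (X * W ^ (-(1 / 2) : ℝ)) := by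
    have e1 : A ^ 2 = (X * (G ^ 2 * S ^ 2)) * w ^ 2 := by
      rw [hA, mul_pow, mul_pow, hXs]
      ring
    rw [e1]
    calc X * (G ^ 2 * S ^ 2) * w ^ 2 ≤ X * (G ^ 2 * S ^ 2) * (2 * W ^ (-(1 / 2) : ℝ)) :=
          mul_le_mul_of_nonneg_left hw2 (by positivity)
      _ = _ := by ring
  have hB2 : B ^ 2 = 16 * S ^ 2 * (Y : ℝ) ^ (1 + 2 * κ) := by
    rw [hB, mul_pow, mul_pow, hY2]
    ring
  rw [← hA, ← hB]
  have hP : 0 ≤ X * W ^ (-(1 / 2) : ℝ) := by positivity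
  have hQ : 0 ≤ (Y : ℝ) ^ (1 + 2 * κ) := by positivity
  calc (C₁ * K * (A + B)) ^ 2 = C₁ ^ 2 * K ^ 2 * (A + B) ^ 2 := by ring
    _ ≤ C₁ ^ 2 * K ^ 2 * (2 * A ^ 2 + 2 * B ^ 2) := by
        apply mul_le_mul_of_nonneg_left _ (by positivity)
        nlinarith [sq_nonneg (A - B)]
    _ ≤ C₁ ^ 2 * K ^ 2 * (2 * (2 * G ^ 2 * S ^ 2 * (X * W ^ (-(1 / 2) : ℝ))) +
          2 * (16 * S ^ 2 * (Y : ℝ) ^ (1 + 2 * κ))) := by
        apply mul_le_mul_of_nonneg_left _ (by positivity)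
        rw [hB2]
        linarith
    _ = (C₁ ^ 2 * S ^ 2 * (4 * G ^ 2)) * K ^ 2 * (X * W ^ (-(1 / 2) : ℝ)) +
          (C₁ ^ 2 * S ^ 2 * 32) * K ^ 2 * (Y : ℝ) ^ (1 + 2 * κ) := by ring
    _ ≤ (C₁ ^ 2 * S ^ 2 * (4 * G ^ 2 + 32) + 1) * K ^ 2 * (X * W ^ (-(1 / 2) : ℝ)) +
          (C₁ ^ 2 * S ^ 2 * (4 * G ^ 2 + 32) + 1) * K ^ 2 * (Y : ℝ) ^ (1 + 2 * κ) := by
        have hc : 0 ≤ C₁ ^ 2 * S ^ 2 := by positivity
        have hc2 : 0 ≤ C₁ ^ 2 * S ^ 2 * (4 * G ^ 2) := by positivity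
        have hc3 : C₁ ^ 2 * S ^ 2 * (4 * G ^ 2 + 32) + 1 =
            C₁ ^ 2 * S ^ 2 * (4 * G ^ 2) + C₁ ^ 2 * S ^ 2 * 32 + 1 := by ring
        rw [hc3]
        apply add_le_add
        · apply mul_le_mul_of_nonneg_right _ hP
          apply mul_le_mul_of_nonneg_right _ (sq_nonneg K)
          linarith
        · apply mul_le_mul_of_nonneg_right _ hQ
          apply mul_le_mul_of_nonneg_right _ (sq_nonneg K)
          linarith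
    _ = _ := by ring

end Pool.Agent.H48.ADM.HLB

namespace Pool.Agent.H48.ADM

open Pool.Agent.H31.CN Pool.Agent.H95.AD Pool.Agent.H50.CN Pool.Agent.H65.AD
open Pool.Agent.H48.ADM.HLB

theorem pf_HLB (hQLS : T_QLS) : T_HLB := by
  intro κ hκ hκ8
  obtain ⟨C₀, hC₀, hQ⟩ := hQLS
  obtain ⟨C, hC, hsum⟩ := sum_Bj hκ hκ8 (C₁ := 8 * C₀ + 1) (by positivity)
  refine ⟨C, hC, ?_⟩
  intro X W K N Y h hX hW hK hN h2N hh
  have hmem : ∀ z ∈ idT N Y W, 1 ≤ z.1 ∧ z.1 ≤ Y ∧ 1 ≤ z.2 ∧ z.2 ≤ Y ∧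
      Squarefree (z.1 * z.2) ∧ Nat.Coprime (z.1 * z.2) N ∧ W < ((z.1 * z.2 : ℕ) : ℝ) := by
    intro z hz
    unfold idT idx at hz
    rw [Finset.mem_filter, Finset.mem_filter, Finset.mem_product, Finset.mem_Icc,
      Finset.mem_Icc] at hz
    obtain ⟨⟨⟨⟨h1, h2⟩, h3, h4⟩, h5, h6⟩, h7⟩ := hz
    exact ⟨h1, h2, h3, h4, h5, h6, h7⟩
  rcases Nat.eq_zero_or_pos Y with hY | hY
  · have hempty : idT N Y W = ∅ := by
      apply Finset.eq_empty_of_forall_notMem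
      intro z hz
      have := hmem z hz
      omega
    rw [hempty]
    simp only [Finset.sum_empty]
    have h1 : ∑ _D ∈ Finset.Icc 1 ⌊X⌋₊, (0 : ℝ) ^ 2 = 0 := by simp
    rw [h1]
    have hW0 : 0 < W := by linarith
    have hX0 : 0 < X := by linarith
    positivity
  have hmaps : ∀ z ∈ idT N Y W, (Nat.log 2 z.1, z.2) ∈
      Finset.range (Nat.log 2 Y + 1) ×ˢ Finset.Icc 1 Y := by
    intro z hz
    obtain ⟨h1, h2, h3, h4, -⟩ := hmem z hz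
    rw [Finset.mem_product, Finset.mem_range, Finset.mem_Icc]
    exact ⟨Nat.lt_succ_of_le (show Nat.log 2 z.1 ≤ Nat.log 2 Y from Nat.log_mono_right h2), h3, h4⟩
  -- the rows
  have hrow : ∀ D : ℕ, ∑ z ∈ idT N Y W, xD z.1 D * (if z.2 ∣ D then 1 else 0) * h z =
      ∑ i ∈ Finset.range (Nat.log 2 Y + 1) ×ˢ Finset.Icc 1 Y,
        (if i.2 ∣ D then 1 else 0) * ∑ r ∈ (Finset.Icc 1 Y).filter
          (fun r => (r, i.2) ∈ idT N Y W ∧ Nat.log 2 r = i.1), h (r, i.2) * xD r D := by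
    intro D
    rw [← Finset.sum_fiberwise_of_maps_to hmaps]
    refine Finset.sum_congr rfl fun i _ => ?_
    rw [Finset.mul_sum]
    symm
    refine Finset.sum_bij (fun r _ => (r, i.2)) ?_ ?_ ?_ ?_
    · intro r hr
      rw [Finset.mem_filter] at hr
      rw [Finset.mem_filter]
      exact ⟨hr.2.1, by rw [hr.2.2]⟩
    · intro r _ r' _ he
      exact congrArg Prod.fst he
    · intro z hz
      rw [Finset.mem_filter] at hz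
      obtain ⟨hz1, hz2⟩ := hz
      have e1 : Nat.log 2 z.1 = i.1 := by rw [← hz2]
      have e2 : z.2 = i.2 := by rw [← hz2]
      obtain ⟨h1, h2, -⟩ := hmem z hz1
      refine ⟨z.1, ?_, ?_⟩
      · rw [Finset.mem_filter, Finset.mem_Icc]
        refine ⟨⟨h1, h2⟩, ?_, e1⟩
        rw [← e2]
        exact hz1
      · rw [← e2]
    · intro r _
      ring
  have hblock : ∀ i ∈ Finset.range (Nat.log 2 Y + 1) ×ˢ Finset.Icc 1 Y,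
      ∑ D ∈ Finset.Icc 1 ⌊X⌋₊, ((if i.2 ∣ D then (1 : ℝ) else 0) *
        ∑ r ∈ (Finset.Icc 1 Y).filter (fun r => (r, i.2) ∈ idT N Y W ∧ Nat.log 2 r = i.1),
          h (r, i.2) * xD r D) ^ 2 ≤ Bj κ X W K (8 * C₀ + 1) i.1 i.2 ^ 2 := by
    intro i hi
    rw [Finset.mem_product, Finset.mem_Icc] at hi
    obtain ⟨-, ht1, -⟩ := hi
    have hb := block hC₀ hQ hκ hκ8 hX hW hK i.1 i.2 ht1
      ((Finset.Icc 1 Y).filter (fun r => (r, i.2) ∈ idT N Y W ∧ Nat.log 2 r = i.1))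
      (fun r => h (r, i.2)) (by
        intro r hr
        rw [Finset.mem_filter, Finset.mem_Icc] at hr
        obtain ⟨⟨hr1, -⟩, hr3, hr4⟩ := hr
        obtain ⟨-, -, -, -, h5, h6, h7⟩ := hmem _ hr3
        have h8 := hh _ hr3
        have hlog := (Nat.log_eq_iff (Or.inr ⟨by norm_num, by omega⟩)).1 hr4
        refine ⟨hlog.1, hlog.2, ?_, h5.of_mul_left, h7, h8⟩
        have h9 : Nat.Coprime r N := Nat.Coprime.coprime_mul_right h6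
        rw [← Nat.not_even_iff_odd]
        intro hev
        have h10 : 2 ∣ Nat.gcd r N := Nat.dvd_gcd hev.two_dvd h2N
        rw [h9] at h10
        norm_num at h10)
    refine le_trans ?_ hb
    refine Finset.sum_le_sum fun D _ => ?_
    rw [mul_pow]
    apply mul_le_of_le_one_left (sq_nonneg _)
    split_ifs <;> norm_num
  have hm := mink (Finset.Icc 1 ⌊X⌋₊) (Finset.range (Nat.log 2 Y + 1) ×ˢ Finset.Icc 1 Y)
    (fun i D => (if i.2 ∣ D then (1 : ℝ) else 0) *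
        ∑ r ∈ (Finset.Icc 1 Y).filter (fun r => (r, i.2) ∈ idT N Y W ∧ Nat.log 2 r = i.1),
          h (r, i.2) * xD r D) (fun i => Bj κ X W K (8 * C₀ + 1) i.1 i.2)
    (fun i _ => Bj_nonneg hW hK (by positivity) i.1 i.2) hblock
  have hf := hsum X W K Y hX hW hK hY
  have hrow2 : ∑ D ∈ Finset.Icc 1 ⌊X⌋₊,
      (∑ z ∈ idT N Y W, xD z.1 D * (if z.2 ∣ D then 1 else 0) * h z) ^ 2 =
      ∑ D ∈ Finset.Icc 1 ⌊X⌋₊, (∑ i ∈ Finset.range (Nat.log 2 Y + 1) ×ˢ Finset.Icc 1 Y,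
        (if i.2 ∣ D then (1 : ℝ) else 0) * ∑ r ∈ (Finset.Icc 1 Y).filter
          (fun r => (r, i.2) ∈ idT N Y W ∧ Nat.log 2 r = i.1), h (r, i.2) * xD r D) ^ 2 :=
    Finset.sum_congr rfl fun D _ => by rw [hrow D]
  rw [hrow2]
  exact hm.trans hf

end Pool.Agent.H48.ADM
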