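import Pool.Agent.H65.AD.TargetsA

/-!
# RTS: the sum of the local weights over the roots (MP_347b49_nt)
-/

set_option autoImplicit false

open MeasureTheory Set Filter
open scoped Real

namespace Pool.Agent.H48.ADM

open Pool.Agent.H31.CN Pool.Agent.H95.AD Pool.Agent.H50.CN Pool.Agent.H65.AD

/-- the local function, written out -/
theorem loc_eq (q : ℕ → ℕ → ℝ) (p e A : ℕ) : loc q p e A =
    q 0 0 + (if p ∣ e then q 0 1 else 0) + (if p ^ 2 ∣ e then q 0 2 else 0) +
    (if p ∣ A then q 1 0 else 0) + (if p ∣ A ∧ p ∣ e then q 1 1 else 0) +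
    (if p ∣ A ∧ p ^ 2 ∣ e then q 1 2 else 0) +
    (if p ^ 2 ∣ A then q 2 0 else 0) + (if p ^ 2 ∣ A ∧ p ∣ e then q 2 1 else 0) +
    (if p ^ 2 ∣ A ∧ p ^ 2 ∣ e then q 2 2 else 0) := by
  unfold loc
  simp only [Finset.sum_range_succ, Finset.sum_range_zero, pow_zero, pow_one, one_dvd, true_and,
    and_true, if_true, zero_add]
  ring

theorem loc_zero (x : ℤ) (p e A : ℕ) : loc (qT x 0) p e A =
    1 + (if p ∣ A then (x : ℝ) else 0) - (if x = 0 ∧ p ^ 2 ∣ A then 1 else 0) := by
  rw [loc_eq]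
  unfold qT
  simp only [ec]
  by_cases hx : x = 0 <;> by_cases h1 : p ∣ A <;> by_cases h2 : p ^ 2 ∣ A <;>
    simp [hx, h1, h2]

/-- if the local number of roots is zero, all local functions are zero -/
theorem loc_vanish {x : ℤ} (hx : x = 1 ∨ x = 0 ∨ x = -1) {p e A : ℕ}
    (h : loc (qT x 0) p e A = 0) {j : ℕ} (hj : j ≤ 2) : loc (qT x j) p e A = 0 := by
  have hpp : p ^ 2 ∣ A → p ∣ A := fun h => (dvd_pow_self p two_ne_zero).trans h
  rw [loc_zero] at h
  rw [loc_eq]
  unfold qT
  rcases hx with rfl | rfl | rfl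
  · exfalso
    by_cases h1 : p ∣ A
    · simp only [h1, if_true, one_ne_zero, false_and, if_false] at h
      norm_num at h
    · simp only [h1, if_false, one_ne_zero, false_and] at h
      norm_num at h
  · have h2 : p ^ 2 ∣ A := by
      by_contra hne
      simp [hne] at h
    have h1 := hpp h2
    interval_cases j
    · simp [ec, h1, h2]
    · by_cases h3 : p ∣ e <;> simp [ec, h1, h2, h3]
    · by_cases h3 : p ∣ e <;> simp [ec, h1, h2, h3]
  · have h1 : p ∣ A := by
      by_contra hne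
      simp [hne] at h
    rcases Nat.eq_zero_or_pos j with rfl | hj0
    · simp [ec, h1]
    · have hq : ∀ i k : ℕ, i < 3 → k < 3 →
          ec 0 j i k + ((-1 : ℤ) : ℝ) * ec 1 j i k + (if (-1 : ℤ) = 0 then ec 2 j i k else 0) =
            0 := by
        intro i k hi hk
        have h01 : ec 0 j i k = ec 1 j i k := by
          interval_cases j <;> interval_cases i <;> interval_cases k <;> rfl
        rw [if_neg (by norm_num), h01]
        push_cast
        ring
      rw [hq 0 0 (by norm_num) (by norm_num), hq 0 1 (by norm_num) (by norm_num),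
        hq 0 2 (by norm_num) (by norm_num), hq 1 0 (by norm_num) (by norm_num),
        hq 1 1 (by norm_num) (by norm_num), hq 1 2 (by norm_num) (by norm_num),
        hq 2 0 (by norm_num) (by norm_num), hq 2 1 (by norm_num) (by norm_num),
        hq 2 2 (by norm_num) (by norm_num)]
      simp

theorem nrt_one (A B C : ℤ) : nrt 1 A B C = 1 := by
  unfold nrt
  have : (Finset.range 1).filter (fun j : ℕ => ((1 : ℕ) : ℤ) ∣ A * (j : ℤ) ^ 2 + B * (j : ℤ) + C) =
      Finset.range 1 := by
    apply Finset.filter_true_of_mem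
    intro j _
    rw [Nat.cast_one]
    exact one_dvd _
  rw [this, Finset.card_range]

/-- the number of roots -/
theorem roots (hNRM : T_NRM) (hNRR : T_NRR) (hCHV : T_CHV) {D : ℕ} (hD : D % 4 = 3)
    (hsq : Squarefree D) (e : ℕ) {A : ℕ} (hA : 1 ≤ A) :
    (nrt A 1 1 (((D : ℤ) + 1) / 4) : ℝ) =
      ∏ p ∈ A.primeFactors, loc (qT (chi p D) 0) p e A := by
  have h1 : ∀ n : ℕ, n ≠ 0 → nrt n 1 1 (((D : ℤ) + 1) / 4) =
      n.factorization.prod fun p k => nrt (p ^ k) 1 1 (((D : ℤ) + 1) / 4) := by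
    intro n hn
    refine Nat.multiplicative_factorization (fun n => nrt n 1 1 (((D : ℤ) + 1) / 4)) ?_ ?_ hn
    · intro a b hab
      rcases Nat.eq_zero_or_pos a with ha | ha
      · have hb : b = 1 := by rw [ha] at hab; simpa using hab
        rw [hb, mul_one, nrt_one, mul_one]
      · rcases Nat.eq_zero_or_pos b with hb | hb
        · have ha1 : a = 1 := by rw [hb] at hab; simpa using hab
          rw [ha1, one_mul, nrt_one, one_mul]
        · exact hNRM a b 1 1 _ ha hb hab
    · exact nrt_one _ _ _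
  rw [h1 A (by omega), Finsupp.prod, Nat.support_factorization, Nat.cast_prod]
  refine Finset.prod_congr rfl fun p hp => ?_
  have hpp := Nat.prime_of_mem_primeFactors hp
  have hpA := Nat.dvd_of_mem_primeFactors hp
  have hk : 1 ≤ A.factorization p := (hpp.dvd_iff_one_le_factorization (by omega)).1 hpA
  have h2 := hNRR D p (A.factorization p) hD hsq hpp hk
  have h3 : (nrt (p ^ A.factorization p) 1 1 (((D : ℤ) + 1) / 4) : ℝ) =
      (((nrt (p ^ A.factorization p) 1 1 (((D : ℤ) + 1) / 4) : ℕ) : ℤ) : ℝ) := by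
    rw [Int.cast_natCast]
  rw [h3, h2, loc_zero, if_pos hpA]
  have h4 : p ^ 2 ∣ A ↔ 2 ≤ A.factorization p :=
    hpp.pow_dvd_iff_le_factorization (by omega)
  by_cases hpD : p ∣ D
  · have hc : chi p D = 0 := (hCHV D p hD hpp).2.2 hpD
    rw [if_pos hpD, hc]
    by_cases hk1 : A.factorization p = 1
    · rw [if_pos hk1, if_neg]
      · simp
      · rintro ⟨-, h5⟩
        have := h4.1 h5
        omega
    · rw [if_neg hk1, if_pos ⟨rfl, h4.2 (by omega)⟩]
      simp
  · have hc : chi p D ≠ 0 := fun h => hpD ((hCHV D p hD hpp).2.1 h)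
    rw [if_neg hpD, if_neg (fun h => hc h.1)]
    push_cast
    ring

theorem pf_RTS (hNRM : T_NRM) (hNRR : T_NRR) (hCHV : T_CHV) (hRBC : T_RBC) (hNLC : T_NLC) :
    T_RTS := by
  intro D m₁ m₂ e A hD3 hD4 hsq hs₁ hs₂ he hA
  have hm₁ : m₁ ≠ 0 := hs₁.ne_zero
  have hm₂ : m₂ ≠ 0 := hs₂.ne_zero
  have htt : ∀ p, tt p m₁ m₂ ≤ 2 := by
    intro p
    unfold tt
    split_ifs <;> omega
  have hpf : (A * (m₁ * m₂)).primeFactors = A.primeFactors ∪ (m₁ * m₂).primeFactors :=
    Nat.primeFactors_mul (by omega) (mul_ne_zero hm₁ hm₂)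
  rw [hpf]
  by_cases hv : ∃ p ∈ A.primeFactors, loc (qT (chi p D) 0) p e A = 0
  · obtain ⟨p, hp, h0⟩ := hv
    have hr := roots hNRM hNRR hCHV hD4 hsq e hA
    rw [Finset.prod_eq_zero hp h0, ← hRBC D A hD4 hA] at hr
    have hempty : (Finset.range (2 * A)).filter (fun B => 4 * A ∣ B ^ 2 + D) = ∅ := by
      rw [← Finset.card_eq_zero]
      exact_mod_cast hr
    rw [hempty, Finset.sum_empty]
    symm
    refine Finset.prod_eq_zero (Finset.mem_union_left _ hp) ?_
    exact loc_vanish (hCHV D p hD4 (Nat.prime_of_mem_primeFactors hp)).1 h0 (htt p)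
  · push Not at hv
    have hne : ∀ p, p.Prime → loc (qT (chi p D) 0) p e A ≠ 0 := by
      intro p hpp
      by_cases hp : p ∣ A
      · exact hv p (Nat.mem_primeFactors.2 ⟨hpp, hp, by omega⟩)
      · rw [loc_zero, if_neg hp, if_neg]
        · norm_num
        · rintro ⟨-, h⟩
          exact hp ((dvd_pow_self p two_ne_zero).trans h)
    have hone : ∀ p ∈ (m₁ * m₂).primeFactors, p ∉ A.primeFactors →
        loc (qT (chi p D) 0) p e A = 1 := by
      intro p hp hpA
      have hp' : ¬ p ∣ A := fun h =>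
        hpA (Nat.mem_primeFactors.2 ⟨Nat.prime_of_mem_primeFactors hp, h, by omega⟩)
      rw [loc_zero, if_neg hp', if_neg]
      · norm_num
      · rintro ⟨-, h⟩
        exact hp' ((dvd_pow_self p two_ne_zero).trans h)
    have hNw : ∀ B ∈ (Finset.range (2 * A)).filter (fun B => 4 * A ∣ B ^ 2 + D),
        (Nw m₁ m₂ A B (((B ^ 2 + D) / (4 * A) : ℕ) : ℤ) e : ℝ) =
          ∏ p ∈ (m₁ * m₂).primeFactors, loc (qT (chi p D) (tt p m₁ m₂)) p e A /
            loc (qT (chi p D) 0) p e A := by
      intro B hB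
      have hB' := (Finset.mem_filter.1 hB).2
      unfold Nw
      rw [Nat.cast_prod]
      refine Finset.prod_congr rfl fun p hp => ?_
      have hpp := Nat.prime_of_mem_primeFactors hp
      obtain ⟨h1, h2⟩ := hNLC D p A B e hD3 hD4 hsq hpp hA he hB'
      rw [eq_div_iff (hne p hpp)]
      by_cases hboth : p ∣ m₁ ∧ p ∣ m₂
      · rw [if_pos hboth, h2]
        unfold tt
        rw [if_pos hboth.1, if_pos hboth.2]
      · rw [if_neg hboth, h1]
        have hor : p ∣ m₁ ∨ p ∣ m₂ := hpp.dvd_mul.1 (Nat.dvd_of_mem_primeFactors hp)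
        have ht : tt p m₁ m₂ = 1 := by
          unfold tt
          by_cases h3 : p ∣ m₁
          · have h4 : ¬ p ∣ m₂ := fun h => hboth ⟨h3, h⟩
            rw [if_pos h3, if_neg h4]
          · rw [if_neg h3, if_pos (hor.resolve_left h3)]
        rw [ht]
    rw [Finset.sum_congr rfl hNw, Finset.sum_const, nsmul_eq_mul, hRBC D A hD4 hA,
      roots hNRM hNRR hCHV hD4 hsq e hA]
    have h5 : ∏ p ∈ A.primeFactors, loc (qT (chi p D) 0) p e A =
        ∏ p ∈ A.primeFactors ∪ (m₁ * m₂).primeFactors, loc (qT (chi p D) 0) p e A := by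
      refine Finset.prod_subset Finset.subset_union_left fun p hp hpA => ?_
      exact hone p ((Finset.mem_union.1 hp).resolve_left hpA) hpA
    have h6 : ∏ p ∈ (m₁ * m₂).primeFactors, loc (qT (chi p D) (tt p m₁ m₂)) p e A /
            loc (qT (chi p D) 0) p e A =
        ∏ p ∈ A.primeFactors ∪ (m₁ * m₂).primeFactors,
          loc (qT (chi p D) (tt p m₁ m₂)) p e A / loc (qT (chi p D) 0) p e A := by
      refine Finset.prod_subset Finset.subset_union_right fun p hp hpm => ?_
      have hpA := (Finset.mem_union.1 hp).resolve_right hpm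
      have hpp := Nat.prime_of_mem_primeFactors hpA
      have h7 : ¬ p ∣ m₁ * m₂ := fun h =>
        hpm (Nat.mem_primeFactors.2 ⟨hpp, h, mul_ne_zero hm₁ hm₂⟩)
      have ht : tt p m₁ m₂ = 0 := by
        unfold tt
        rw [if_neg fun h => h7 (h.mul_right _), if_neg fun h => h7 (h.mul_left _)]
      rw [ht, div_self (hne p hpp)]
    rw [h5, h6, ← Finset.prod_mul_distrib]
    refine Finset.prod_congr rfl fun p hp => ?_
    have hpp : p.Prime := by
      rcases Finset.mem_union.1 hp with h | h <;> exact Nat.prime_of_mem_primeFactors h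
    rw [mul_div_cancel₀ _ (hne p hpp)]

end Pool.Agent.H48.ADM
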